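import Pool.Agent.H464R2.LHY.Int

open MeasureTheory UnitAddTorus
open scoped ComplexConjugate ENNReal

namespace Pool.Agent.H751R2.LHY

noncomputable section

theorem h464_normSq (n : Mom) (y : T3) :
    (mFourier n y).re ^ 2 + (mFourier n y).im ^ 2 = 1 := by
  have h : mFourier n y * conj (mFourier n y) = 1 := by
    rw [← mFourier_neg, ← mFourier_add, add_neg_cancel, mFourier_zero]
    rfl
  rw [Complex.mul_conj] at h
  have h2 : Complex.normSq (mFourier n y) = 1 := by exact_mod_cast h
  rw [Complex.normSq_apply] at h2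
  nlinarith [h2]

theorem cas_sq_le (n : Mom) (y : T3) : cas n y ^ 2 ≤ 2 := by
  have h := h464_normSq n y
  unfold cas
  nlinarith [sq_nonneg ((mFourier n y).re - (mFourier n y).im)]

theorem cas_continuous (n : Mom) : Continuous (cas n) :=
  (Complex.continuous_re.comp (mFourier n).continuous).add
    (Complex.continuous_im.comp (mFourier n).continuous)

theorem h464_int_mF {n : Mom} (hn : n ≠ 0) : ∫ y, mFourier n y = 0 := by
  classical
  obtain ⟨a, ha⟩ : ∃ a, n a ≠ 0 := by
    by_contra hcon
    push Not at hcon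
    exact hn (funext hcon)
  obtain ⟨t, ht⟩ := h464_exists_ne ha
  have h1 : ∫ y : T3, mFourier n (y + Pi.single a t) = ∫ y, mFourier n y :=
    integral_add_right_eq_self (fun y => mFourier n y) _
  simp_rw [h464_mF_add, h464_mF_single] at h1
  rw [integral_mul_const] at h1
  have h4 : (∫ y : T3, mFourier n y) * (fourier (n a) t - 1) = 0 := by linear_combination h1
  exact (mul_eq_zero.mp h4).resolve_right (sub_ne_zero.mpr ht)

theorem h464_mF_int (n : Mom) : Integrable (fun y : T3 => mFourier n y) :=
  (mFourier n).continuous.integrable_of_hasCompactSupport (HasCompactSupport.of_compactSpace _)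

theorem int_cas_sq {n : Mom} (hn : n ≠ 0) : ∫ y, cas n y ^ 2 = 1 := by
  have h2n : n + n ≠ 0 := by
    intro h
    apply hn
    ext a
    have := congrFun h a
    simp only [Pi.add_apply, Pi.zero_apply] at this ⊢
    omega
  have h1 : ∀ y, cas n y ^ 2 = 1 + (mFourier (n + n) y).im := by
    intro y
    have h := h464_normSq n y
    rw [mFourier_add, Complex.mul_im]
    unfold cas
    nlinarith [h]
  simp_rw [h1]
  have hi := h464_mF_int (n + n)
  have h2 := integral_im (𝕜 := ℂ) hi
  simp only [RCLike.im_to_complex] at h2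
  have hi2 := hi.im
  simp only [RCLike.im_to_complex] at hi2
  rw [integral_add (integrable_const _) hi2, h2, h464_int_mF h2n]
  simp

theorem h464_cas_mul (n : Mom) (x y : T3) :
    cas n x * cas n y = cs n (x - y) + (mFourier n (x + y)).im := by
  have h1 : cs n (x - y) = (mFourier n x * conj (mFourier n y)).re := by
    unfold cs
    rw [sub_eq_add_neg, h464_mF_add, h464_mF_neg, mFourier_neg]
  rw [h1, h464_mF_add, Complex.mul_im, Complex.mul_re, Complex.conj_re, Complex.conj_im]
  unfold cas
  ring

theorem sum_cas {B0 : Finset Mom} (hB0 : Sym B0) {c : Mom → ℝ} (hc : ∀ n, c (-n) = c n)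
    (x y : T3) : ∑ n ∈ B0, c n * (cas n x * cas n y) = wf B0 c (x - y) := by
  have h1 : ∑ n ∈ B0, c n * (mFourier n (x + y)).im = 0 := by
    have h2 : ∑ n ∈ B0, c n * (mFourier n (x + y)).im =
        ∑ n ∈ B0, -(c n * (mFourier n (x + y)).im) := by
      refine Finset.sum_nbij' (fun n => -n) (fun n => -n) hB0.neg hB0.neg (by simp) (by simp) ?_
      intro n _
      rw [hc, mFourier_neg, Complex.conj_im]
      ring
    rw [Finset.sum_neg_distrib] at h2
    linarith
  simp_rw [h464_cas_mul, mul_add, Finset.sum_add_distrib]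
  rw [h1, add_zero]
  rfl

theorem sr_sq (c : Mom → ℝ) (n : Mom) : sr c n ^ 2 = -(c n : ℂ) := by
  unfold sr
  split_ifs with h
  · rw [← Complex.ofReal_pow, Real.sq_sqrt (by linarith)]
    push_cast
    ring
  · rw [mul_pow, Complex.I_sq, ← Complex.ofReal_pow, Real.sq_sqrt (by linarith)]
    ring

theorem sr_norm (c : Mom → ℝ) (n : Mom) : conj (sr c n) * sr c n = (|c n| : ℝ) := by
  unfold sr
  split_ifs with h
  · rw [Complex.conj_ofReal, ← Complex.ofReal_mul, Real.mul_self_sqrt (by linarith),
      abs_of_nonpos h]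
  · rw [map_mul, Complex.conj_I, Complex.conj_ofReal]
    have h2 : -Complex.I * (Real.sqrt (c n) : ℂ) * (Complex.I * (Real.sqrt (c n) : ℂ)) =
        -(Complex.I * Complex.I) * ((Real.sqrt (c n) : ℂ) * (Real.sqrt (c n) : ℂ)) := by ring
    rw [h2, Complex.I_mul_I, ← Complex.ofReal_mul, Real.mul_self_sqrt (by linarith),
      abs_of_nonneg (by linarith)]
    ring

end

end Pool.Agent.H751R2.LHY
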