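import Pool.Agent.H751R2.LHY.Defs

open MeasureTheory UnitAddTorus
open scoped ComplexConjugate ENNReal

namespace Pool.Agent.H751R2.LHY

noncomputable section

theorem h464_cs_zero (y : T3) : cs 0 y = 1 := by
  simp [cs, mFourier_zero]

theorem h464_cs_neg (n : Mom) (y : T3) : cs (-n) y = cs n y := by
  simp [cs, mFourier_neg]

theorem h464_cs_abs_le (n : Mom) (y : T3) : |cs n y| ≤ 1 := by
  have h1 : ‖mFourier n y‖ ≤ ‖mFourier n‖ := ContinuousMap.norm_coe_le_norm _ _
  rw [mFourier_norm] at h1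
  exact (Complex.abs_re_le_norm _).trans h1

theorem h464_cs_cont (n : Mom) : Continuous (cs n) :=
  Complex.continuous_re.comp (mFourier n).continuous

theorem h464_sq_neg (n : Mom) : sq (-n) = sq n := by
  simp [sq]

theorem h464_sq_nonneg (n : Mom) : 0 ≤ sq n := Finset.sum_nonneg fun _ _ => sq_nonneg _

theorem h464_wf_cont (B0 : Finset Mom) (c : Mom → ℝ) : Continuous (wf B0 c) :=
  continuous_finsetSum _ fun n _ => continuous_const.mul (h464_cs_cont n)

theorem h464_int_mul {W : T3 → ℝ} (hW : Integrable W) {g : T3 → ℝ} (hg : Continuous g) :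
    Integrable (fun y => W y * g y) := by
  obtain ⟨C, hC⟩ := isCompact_univ.exists_bound_of_continuousOn hg.continuousOn
  exact hW.mul_bdd (c := C) hg.aestronglyMeasurable (ae_of_all _ fun y => hC y trivial)

theorem h464_lin3 {f g h : T3 → ℝ} (hf : Integrable f) (hg : Integrable g) (hh : Integrable h)
    (a b c : ℝ) : ∫ y, (a * f y + b * g y + c * h y) =
      a * (∫ y, f y) + b * (∫ y, g y) + c * ∫ y, h y := by
  have i1 : Integrable (fun y => a * f y + b * g y) := (hf.const_mul a).add (hg.const_mul b)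
  rw [integral_add i1 (hh.const_mul c), integral_add (hf.const_mul a) (hg.const_mul b),
    integral_const_mul, integral_const_mul, integral_const_mul]

theorem h464_gh_neg (W : T3 → ℝ) (B0 : Finset Mom) (c : Mom → ℝ) (n : Mom) :
    gh W B0 c (-n) = gh W B0 c n := by
  simp [gh, h464_cs_neg]

/-- `∫ W w cs n` as a finite sum -/
theorem h464_int_wf {W : T3 → ℝ} (hW : Integrable W) (B0 : Finset Mom) (c : Mom → ℝ)
    {g : T3 → ℝ} (hg : Continuous g) :
    ∫ y, W y * (wf B0 c y * g y) = ∑ m ∈ B0, c m * ∫ y, W y * (cs m y * g y) := by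
  have : ∀ y, W y * (wf B0 c y * g y) = ∑ m ∈ B0, c m * (W y * (cs m y * g y)) := by
    intro y
    rw [wf, Finset.sum_mul, Finset.mul_sum]
    exact Finset.sum_congr rfl fun m _ => by ring
  simp_rw [this]
  rw [integral_finsetSum]
  · exact Finset.sum_congr rfl fun m _ => by rw [integral_const_mul]
  · intro m _
    exact (h464_int_mul hW ((h464_cs_cont m).mul hg)).const_mul _

theorem h464_gh_eq {W : T3 → ℝ} (hW : Integrable W) (B0 : Finset Mom) (c : Mom → ℝ) (n : Mom) :
    gh W B0 c n = (∫ y, W y * cs n y) - ∑ m ∈ B0, c m * ∫ y, W y * (cs m y * cs n y) := by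
  have i2 : Integrable (fun y => W y * (wf B0 c y * cs n y)) :=
    h464_int_mul hW ((h464_wf_cont B0 c).mul (h464_cs_cont n))
  rw [← h464_int_wf hW B0 c (h464_cs_cont n), ← integral_sub (h464_int_mul hW (h464_cs_cont n)) i2]
  exact integral_congr_ae (ae_of_all _ fun y => by simp only []; ring)

theorem h464_wf_neg {B0 : Finset Mom} (hB0 : Sym B0) (c : Mom → ℝ) (y : T3) :
    wf B0 (fun n => c (-n)) y = wf B0 c y := by
  unfold wf
  refine Finset.sum_nbij' (fun n => -n) (fun n => -n) hB0.neg hB0.neg (by simp) (by simp) ?_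
  intro n _
  rw [h464_cs_neg]

theorem exists_scat {W : T3 → ℝ} (hW : Pot W) {q μ : ℝ} (hq : 0 < q) (hμ : 0 < μ)
    {B0 : Finset Mom} (hB0 : Sym B0) : ∃ c, Scat W q μ B0 c := by
  classical
  -- extension by zero
  let ext : (B0 → ℝ) →ₗ[ℝ] (Mom → ℝ) :=
    { toFun := fun d n => if h : n ∈ B0 then d ⟨n, h⟩ else 0
      map_add' := by intro d e; ext n; by_cases h : n ∈ B0 <;> simp [h]
      map_smul' := by intro r d; ext n; by_cases h : n ∈ B0 <;> simp [h] }
  have ext_apply : ∀ (d : B0 → ℝ) (n : B0), ext d n = d n := by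
    intro d n; simp [ext]
  let T : (B0 → ℝ) →ₗ[ℝ] (B0 → ℝ) :=
    { toFun := fun d n => (2 * (q * sq n) + 2 * μ) * d n
        + ∑ m ∈ B0, ext d m * ∫ y, W y * (cs m y * cs n y)
      map_add' := by
        intro d e; ext n
        simp only [map_add, Pi.add_apply, add_mul, Finset.sum_add_distrib]
        ring
      map_smul' := by
        intro r d; ext n
        simp only [map_smul, Pi.smul_apply, smul_eq_mul, RingHom.id_apply, mul_add,
          Finset.mul_sum]
        congr 1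
        · ring
        · exact Finset.sum_congr rfl fun m _ => by ring }
  have hinj : Function.Injective T := by
    rw [injective_iff_map_eq_zero]
    intro d hd
    have h1 : ∑ n : B0, d n * T d n = 0 := by simp [hd]
    have h2 : ∑ n : B0, d n * T d n = ∑ n : B0, (2 * (q * sq n) + 2 * μ) * d n ^ 2
        + ∫ y, W y * (wf B0 (ext d) y) ^ 2 := by
      have h3 : ∫ y, W y * (wf B0 (ext d) y) ^ 2 =
          ∑ n : B0, d n * ∑ m ∈ B0, ext d m * ∫ y, W y * (cs m y * cs n y) := by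
        have h4 : ∀ n : B0, ∑ m ∈ B0, ext d m * ∫ y, W y * (cs m y * cs n y) =
            ∫ y, W y * (cs n y * wf B0 (ext d) y) := by
          intro n
          rw [← h464_int_wf hW.int B0 (ext d) (h464_cs_cont n)]
          exact integral_congr_ae (ae_of_all _ fun y => by simp only []; ring)
        simp_rw [h4]
        have h5 : ∀ n : B0, d n * ∫ y, W y * (cs n y * wf B0 (ext d) y) =
            (fun m : Mom => ext d m * ∫ y, W y * (cs m y * wf B0 (ext d) y)) n := by
          intro n; simp only [ext_apply]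
        simp_rw [h5]
        rw [Finset.sum_coe_sort B0 (fun m : Mom => ext d m * ∫ y, W y * (cs m y * wf B0 (ext d) y)),
          ← h464_int_wf hW.int B0 (ext d) (h464_wf_cont B0 _)]
        exact integral_congr_ae (ae_of_all _ fun y => by simp only []; ring)
      rw [h3, ← Finset.sum_add_distrib]
      refine Finset.sum_congr rfl fun n _ => ?_
      simp only [T, LinearMap.coe_mk, AddHom.coe_mk]
      ring
    have h6 : 0 ≤ ∫ y, W y * (wf B0 (ext d) y) ^ 2 :=
      integral_nonneg fun y => mul_nonneg (hW.nonneg y) (sq_nonneg _)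
    have h7 : ∀ n : B0, 0 ≤ (2 * (q * sq n) + 2 * μ) * d n ^ 2 := fun n => by
      have := h464_sq_nonneg n
      positivity
    have h8 : ∑ n : B0, (2 * (q * sq n) + 2 * μ) * d n ^ 2 = 0 :=
      le_antisymm (by linarith) (Finset.sum_nonneg fun n _ => h7 n)
    rw [Finset.sum_eq_zero_iff_of_nonneg fun n _ => h7 n] at h8
    ext n
    have h9 := h8 n (Finset.mem_univ _)
    have h10 : 0 < 2 * (q * sq n) + 2 * μ := by
      have := h464_sq_nonneg n
      positivity
    simpa using (mul_eq_zero.mp h9).resolve_left h10.ne'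
  obtain ⟨d, hd⟩ := (LinearMap.injective_iff_surjective.mp hinj) (fun n => ∫ y, W y * cs n y)
  set c : Mom → ℝ := ext d with hcdef
  have hc : ∀ n ∈ B0, gh W B0 c n = (2 * (q * sq n) + 2 * μ) * c n := by
    intro n hn
    have h1 := congrFun hd ⟨n, hn⟩
    simp only [T, LinearMap.coe_mk, AddHom.coe_mk] at h1
    rw [h464_gh_eq hW.int]
    have h2 : c n = d ⟨n, hn⟩ := ext_apply d ⟨n, hn⟩
    rw [h2, ← h1]
    ring
  refine ⟨fun n => (c n + c (-n)) / 2, ?_, ?_⟩
  · intro n
    simp only [neg_neg]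
    ring
  · intro n hn
    have h1 : ∀ y, wf B0 (fun n => (c n + c (-n)) / 2) y = wf B0 c y := by
      intro y
      have h2 : wf B0 (fun n => (c n + c (-n)) / 2) y =
          (wf B0 c y + wf B0 (fun n => c (-n)) y) / 2 := by
        unfold wf
        rw [← Finset.sum_add_distrib, Finset.sum_div]
        exact Finset.sum_congr rfl fun n _ => by ring
      rw [h2, h464_wf_neg hB0]
      ring
    have h3 : gh W B0 (fun n => (c n + c (-n)) / 2) n = gh W B0 c n := by
      unfold gh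
      simp_rw [h1]
    have h4 := hc n hn
    have h5 := hc (-n) (hB0.neg n hn)
    rw [h464_gh_neg, h464_sq_neg] at h5
    rw [h3]
    linear_combination (1 / 2) * h4 + (1 / 2) * h5

theorem scat_Q {W : T3 → ℝ} (hW : Pot W) {q μ : ℝ} {B0 : Finset Mom} {c : Mom → ℝ}
    (hc : Scat W q μ B0 c) : gh W B0 c 0 = Qf W q μ B0 c := by
  have h1 : ∑ n ∈ B0, (2 * (q * sq n) + 2 * μ) * c n ^ 2 =
      ∫ y, W y * (wf B0 c y * (1 - wf B0 c y)) := by
    have hcc : Continuous (fun y => 1 - wf B0 c y) := continuous_const.sub (h464_wf_cont B0 c)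
    rw [h464_int_wf hW.int B0 c hcc]
    refine Finset.sum_congr rfl fun n hn => ?_
    have h2 := hc.eq n hn
    have h3 : ∫ y, W y * (cs n y * (1 - wf B0 c y)) = gh W B0 c n := by
      unfold gh
      exact integral_congr_ae (ae_of_all _ fun y => by simp only []; ring)
    rw [h3, h2]
    ring
  rw [Qf, h1, ← integral_add]
  · unfold gh
    exact integral_congr_ae (ae_of_all _ fun y => by simp only [h464_cs_zero]; ring)
  · exact h464_int_mul hW.int ((continuous_const.sub (h464_wf_cont B0 c)).pow 2)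
  · exact h464_int_mul hW.int ((h464_wf_cont B0 c).mul (continuous_const.sub (h464_wf_cont B0 c)))

theorem h464_wf_sub (B0 : Finset Mom) (c c' : Mom → ℝ) (y : T3) :
    wf B0 (fun n => c' n - c n) y = wf B0 c' y - wf B0 c y := by
  unfold wf
  rw [← Finset.sum_sub_distrib]
  exact Finset.sum_congr rfl fun n _ => by ring

theorem scat_min {W : T3 → ℝ} (hW : Pot W) {q μ : ℝ} (hq : 0 < q) (hμ : 0 < μ)
    {B0 : Finset Mom} {c : Mom → ℝ} (hc : Scat W q μ B0 c) (c' : Mom → ℝ) :
    Qf W q μ B0 c ≤ Qf W q μ B0 c' := by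
  set d : Mom → ℝ := fun n => c' n - c n with hd
  have hcross : ∫ y, W y * (wf B0 d y * (1 - wf B0 c y)) =
      ∑ n ∈ B0, (2 * (q * sq n) + 2 * μ) * c n * d n := by
    have hcc : Continuous (fun y => 1 - wf B0 c y) := continuous_const.sub (h464_wf_cont B0 c)
    rw [h464_int_wf hW.int B0 d hcc]
    refine Finset.sum_congr rfl fun n hn => ?_
    have h2 := hc.eq n hn
    have h3 : ∫ y, W y * (cs n y * (1 - wf B0 c y)) = gh W B0 c n := by
      unfold gh
      exact integral_congr_ae (ae_of_all _ fun y => by simp only []; ring)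
    rw [h3, h2]
    ring
  have i1 : Integrable (fun y => W y * (1 - wf B0 c y) ^ 2) :=
    h464_int_mul hW.int ((continuous_const.sub (h464_wf_cont B0 c)).pow 2)
  have i2 : Integrable (fun y => W y * (wf B0 d y * (1 - wf B0 c y))) :=
    h464_int_mul hW.int ((h464_wf_cont B0 d).mul (continuous_const.sub (h464_wf_cont B0 c)))
  have i3 : Integrable (fun y => W y * (wf B0 d y) ^ 2) :=
    h464_int_mul hW.int ((h464_wf_cont B0 d).pow 2)
  have h1 : ∫ y, W y * (1 - wf B0 c' y) ^ 2 = (∫ y, W y * (1 - wf B0 c y) ^ 2)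
      - 2 * (∫ y, W y * (wf B0 d y * (1 - wf B0 c y))) + ∫ y, W y * (wf B0 d y) ^ 2 := by
    have h10 := h464_lin3 i1 i2 i3 1 (-2) 1
    have h11 : ∫ y, W y * (1 - wf B0 c' y) ^ 2 = ∫ y, (1 * (W y * (1 - wf B0 c y) ^ 2)
        + (-2) * (W y * (wf B0 d y * (1 - wf B0 c y))) + 1 * (W y * (wf B0 d y) ^ 2)) := by
      refine integral_congr_ae (ae_of_all _ fun y => ?_)
      simp only []
      rw [hd, h464_wf_sub]
      ring
    rw [h11, h10]
    ring
  have h2 : ∑ n ∈ B0, (2 * (q * sq n) + 2 * μ) * c' n ^ 2 =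
      (∑ n ∈ B0, (2 * (q * sq n) + 2 * μ) * c n ^ 2)
      + 2 * (∑ n ∈ B0, (2 * (q * sq n) + 2 * μ) * c n * d n)
      + ∑ n ∈ B0, (2 * (q * sq n) + 2 * μ) * d n ^ 2 := by
    rw [Finset.mul_sum, ← Finset.sum_add_distrib, ← Finset.sum_add_distrib]
    exact Finset.sum_congr rfl fun n _ => by simp only [hd]; ring
  have h3 : 0 ≤ ∫ y, W y * (wf B0 d y) ^ 2 :=
    integral_nonneg fun y => mul_nonneg (hW.nonneg y) (sq_nonneg _)
  have h4 : 0 ≤ ∑ n ∈ B0, (2 * (q * sq n) + 2 * μ) * d n ^ 2 :=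
    Finset.sum_nonneg fun n _ => by
      have := h464_sq_nonneg n
      positivity
  rw [Qf, Qf, h1, h2, hcross]
  linarith

theorem h464_wf_zero (B0 : Finset Mom) (y : T3) : wf B0 (fun _ => 0) y = 0 := by
  simp [wf]

theorem h464_int_sq_le_Q {W : T3 → ℝ} {q μ : ℝ} (hq : 0 < q) (hμ : 0 < μ)
    (B0 : Finset Mom) (c : Mom → ℝ) :
    ∫ y, W y * (1 - wf B0 c y) ^ 2 ≤ Qf W q μ B0 c := by
  have h4 : 0 ≤ ∑ n ∈ B0, (2 * (q * sq n) + 2 * μ) * c n ^ 2 :=
    Finset.sum_nonneg fun n _ => by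
      have := h464_sq_nonneg n
      positivity
  rw [Qf]
  linarith

/-- Cauchy–Schwarz with weight `W` -/
theorem h464_cs_ineq {W : T3 → ℝ} (hW : Pot W) {f g : T3 → ℝ} (hf : Continuous f)
    (hg : Continuous g) :
    (∫ y, W y * (f y * g y)) ^ 2 ≤ (∫ y, W y * f y ^ 2) * ∫ y, W y * g y ^ 2 := by
  have i1 : Integrable (fun y => W y * f y ^ 2) := h464_int_mul hW.int (hf.pow 2)
  have i2 : Integrable (fun y => W y * (f y * g y)) := h464_int_mul hW.int (hf.mul hg)
  have i3 : Integrable (fun y => W y * g y ^ 2) := h464_int_mul hW.int (hg.pow 2)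
  set a := ∫ y, W y * f y ^ 2
  set b := ∫ y, W y * (f y * g y)
  set d := ∫ y, W y * g y ^ 2
  have key : ∀ t : ℝ, 0 ≤ d * (t * t) + (-2 * b) * t + a := by
    intro t
    have h1 : a - 2 * t * b + t ^ 2 * d = ∫ y, W y * (f y - t * g y) ^ 2 := by
      have h10 := h464_lin3 i1 i2 i3 1 (-2 * t) (t ^ 2)
      have h11 : ∫ y, W y * (f y - t * g y) ^ 2 = ∫ y, (1 * (W y * f y ^ 2)
          + (-2 * t) * (W y * (f y * g y)) + t ^ 2 * (W y * g y ^ 2)) :=
        integral_congr_ae (ae_of_all _ fun y => by simp only []; ring)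
      rw [h11, h10]
      simp only [a, b, d]
      ring
    have h2 : 0 ≤ ∫ y, W y * (f y - t * g y) ^ 2 :=
      integral_nonneg fun y => mul_nonneg (hW.nonneg y) (sq_nonneg _)
    linarith [h1, h2]
  have h := discrim_le_zero key
  rw [discrim] at h
  nlinarith [h]

theorem gh_le {W : T3 → ℝ} (hW : Pot W) {q μ : ℝ} (hq : 0 < q) (hμ : 0 < μ)
    {B0 : Finset Mom} {c : Mom → ℝ} (hc : Scat W q μ B0 c) (n : Mom) :
    |gh W B0 c n| ≤ ∫ y, W y := by
  have hWnn : 0 ≤ ∫ y, W y := integral_nonneg hW.nonneg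
  have h1 : (gh W B0 c n) ^ 2 ≤ (∫ y, W y * (1 - wf B0 c y) ^ 2) * ∫ y, W y * cs n y ^ 2 := by
    have := h464_cs_ineq hW (continuous_const.sub (h464_wf_cont B0 c) : Continuous
      fun y => (1 : ℝ) - wf B0 c y) (h464_cs_cont n)
    have h2 : gh W B0 c n = ∫ y, W y * ((1 - wf B0 c y) * cs n y) := by
      unfold gh
      exact integral_congr_ae (ae_of_all _ fun y => by simp only []; ring)
    rw [h2]
    exact this
  have h2 : ∫ y, W y * (1 - wf B0 c y) ^ 2 ≤ ∫ y, W y := by
    refine (h464_int_sq_le_Q hq hμ B0 c).trans ((scat_min hW hq hμ hc (fun _ => 0)).trans ?_)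
    rw [Qf]
    simp [h464_wf_zero]
  have h3 : ∫ y, W y * cs n y ^ 2 ≤ ∫ y, W y := by
    refine integral_mono (h464_int_mul hW.int ((h464_cs_cont n).pow 2)) hW.int fun y => ?_
    have := h464_cs_abs_le n y
    have h4 : cs n y ^ 2 ≤ 1 := by
      rw [← sq_abs]
      nlinarith [abs_nonneg (cs n y)]
    simpa using mul_le_mul_of_nonneg_left h4 (hW.nonneg y)
  have h4 : 0 ≤ ∫ y, W y * cs n y ^ 2 :=
    integral_nonneg fun y => mul_nonneg (hW.nonneg y) (sq_nonneg _)
  refine abs_le_of_sq_le_sq ?_ hWnn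
  calc (gh W B0 c n) ^ 2 ≤ (∫ y, W y * (1 - wf B0 c y) ^ 2) * ∫ y, W y * cs n y ^ 2 := h1
    _ ≤ (∫ y, W y) * ∫ y, W y := mul_le_mul h2 h3 h4 hWnn
    _ = (∫ y, W y) ^ 2 := by ring

/-- closeness of `gh n` and `gh 0` -/
theorem gh_near {W : T3 → ℝ} (hW : Pot W) {q μ : ℝ} (hq : 0 < q) (hμ : 0 < μ)
    {B0 : Finset Mom} {c : Mom → ℝ} (hc : Scat W q μ B0 c) (n : Mom)
    (hn : 8 * ∫ y, W y * (1 - cs n y) ≤ gh W B0 c 0) :
    gh W B0 c 0 / 2 ≤ gh W B0 c n := by
  have hcont : Continuous fun y => (1 : ℝ) - wf B0 c y :=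
    continuous_const.sub (h464_wf_cont B0 c)
  have hcs1 : Continuous fun y => (1 : ℝ) - cs n y := continuous_const.sub (h464_cs_cont n)
  have h0 : ∫ y, W y * (1 - wf B0 c y) ^ 2 ≤ gh W B0 c 0 := by
    rw [scat_Q hW hc]
    exact h464_int_sq_le_Q hq hμ B0 c
  have h0' : 0 ≤ ∫ y, W y * (1 - wf B0 c y) ^ 2 :=
    integral_nonneg fun y => mul_nonneg (hW.nonneg y) (sq_nonneg _)
  have hg0 : 0 ≤ gh W B0 c 0 := h0'.trans h0
  have h1 : gh W B0 c 0 - gh W B0 c n = ∫ y, W y * ((1 - wf B0 c y) * (1 - cs n y)) := by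
    unfold gh
    have j1 : Integrable (fun y => W y * (1 - wf B0 c y) * cs 0 y) := by
      simpa [mul_assoc] using h464_int_mul hW.int (hcont.mul (h464_cs_cont 0))
    have j2 : Integrable (fun y => W y * (1 - wf B0 c y) * cs n y) := by
      simpa [mul_assoc] using h464_int_mul hW.int (hcont.mul (h464_cs_cont n))
    rw [← integral_sub j1 j2]
    exact integral_congr_ae (ae_of_all _ fun y => by simp only [h464_cs_zero]; ring)
  have h2 := h464_cs_ineq hW hcont hcs1
  have h3 : ∫ y, W y * (1 - cs n y) ^ 2 ≤ gh W B0 c 0 / 4 := by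
    have h4 : ∫ y, W y * (1 - cs n y) ^ 2 ≤ ∫ y, 2 * (W y * (1 - cs n y)) := by
      refine integral_mono (h464_int_mul hW.int (hcs1.pow 2))
        ((h464_int_mul hW.int hcs1).const_mul 2) fun y => ?_
      have h5 := abs_le.mp (h464_cs_abs_le n y)
      have h6 : (1 - cs n y) ^ 2 ≤ 2 * (1 - cs n y) := by nlinarith
      calc W y * (1 - cs n y) ^ 2 ≤ W y * (2 * (1 - cs n y)) :=
            mul_le_mul_of_nonneg_left h6 (hW.nonneg y)
        _ = 2 * (W y * (1 - cs n y)) := by ring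
    rw [integral_const_mul] at h4
    linarith
  have h3' : 0 ≤ ∫ y, W y * (1 - cs n y) ^ 2 :=
    integral_nonneg fun y => mul_nonneg (hW.nonneg y) (sq_nonneg _)
  have h4 : (gh W B0 c 0 - gh W B0 c n) ^ 2 ≤ (gh W B0 c 0 / 2) ^ 2 := by
    rw [h1]
    refine h2.trans ?_
    calc (∫ y, W y * (1 - wf B0 c y) ^ 2) * ∫ y, W y * (1 - cs n y) ^ 2
        ≤ gh W B0 c 0 * (gh W B0 c 0 / 4) := mul_le_mul h0 h3 h3' hg0
      _ = (gh W B0 c 0 / 2) ^ 2 := by ring
  have h5 := abs_le_of_sq_le_sq h4 (by linarith)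
  have h6 := (abs_le.mp h5).2
  linarith

end

end Pool.Agent.H751R2.LHY
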