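import Pool.Agent.H464R2.LHY.Cas
import Pool.Agent.H464R2.LHY.Scat

open MeasureTheory UnitAddTorus
open scoped ComplexConjugate ENNReal

namespace Pool.Agent.H751R2.LHY

noncomputable section

theorem h464_sg_mul (b b' : Bool) : sg b * sg b' = sg (b == b') := by
  cases b <;> cases b' <;> simp [sg]

theorem h464_xor {K : Type*} [Fintype K] [DecidableEq K] (G : (K → Bool) → ℂ) :
    ∑ ξ : K → Bool, ∑ ξ' : K → Bool, G (fun n => ξ n == ξ' n) =
      2 ^ Fintype.card K * ∑ η : K → Bool, G η := by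
  have h1 : ∀ ξ : K → Bool, ∑ ξ' : K → Bool, G (fun n => ξ n == ξ' n) =
      ∑ η : K → Bool, G η := by
    intro ξ
    refine Finset.sum_nbij' (fun ξ' => fun n => ξ n == ξ' n) (fun η => fun n => ξ n == η n)
      (by simp) (by simp) ?_ ?_ (fun _ _ => rfl)
    · intro ξ' _
      ext n
      change (ξ n == (ξ n == ξ' n)) = ξ' n
      cases ξ n <;> cases ξ' n <;> rfl
    · intro η _
      ext n
      change (ξ n == (ξ n == η n)) = η n
      cases ξ n <;> cases η n <;> rfl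
  simp_rw [h1]
  rw [Finset.sum_const, nsmul_eq_mul]
  simp

/-- signs extended by zero -/
def h464_X {B0 : Finset Mom} (ξ : B0 → Bool) (n : Mom) : ℝ :=
  if h : n ∈ B0 then sg (ξ ⟨n, h⟩) else 0

theorem h464_X_coe {B0 : Finset Mom} (ξ : B0 → Bool) (n : B0) : h464_X ξ n = sg (ξ n) := by
  simp [h464_X]

/-- one-particle coefficients -/
def h464_U (B0 : Finset Mom) (c : Mom → ℝ) (ξ : B0 → Bool) (n : Mom) : ℂ :=
  if n = 0 then 1 else
    (1 - Complex.I) / 2 * sr c n * h464_X ξ n + (1 + Complex.I) / 2 * sr c n * h464_X ξ (-n)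

theorem h464_sr_neg {c : Mom → ℝ} (hc : ∀ n, c (-n) = c n) (n : Mom) : sr c (-n) = sr c n := by
  simp [sr, hc]

theorem h464_cas_eq (n : Mom) (y : T3) : (cas n y : ℂ) =
    (1 - Complex.I) / 2 * mFourier n y + (1 + Complex.I) / 2 * mFourier (-n) y := by
  rw [mFourier_neg]
  unfold cas
  apply Complex.ext
  · simp
    ring
  · simp
    ring

theorem h464_uf {B0 : Finset Mom} (hB0 : Sym B0) {c : Mom → ℝ} (hc : ∀ n, c (-n) = c n)
    (ξ : B0 → Bool) (y : T3) :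
    uf B0 c ξ y = ∑ n ∈ insert 0 B0, h464_U B0 c ξ n * mFourier n y := by
  rw [Finset.sum_insert hB0.zero]
  have h0 : h464_U B0 c ξ 0 * mFourier 0 y = 1 := by
    simp [h464_U, mFourier_zero]
  rw [h0, uf]
  congr 1
  have h1 : ∑ n : B0, sr c n * (sg (ξ n) : ℂ) * (cas n y : ℂ) =
      ∑ n ∈ B0, sr c n * (h464_X ξ n : ℂ) * (cas n y : ℂ) := by
    rw [← Finset.sum_coe_sort B0 (fun n => sr c n * (h464_X ξ n : ℂ) * (cas n y : ℂ))]
    simp only [h464_X_coe]
  rw [h1]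
  have h2 : ∀ n ∈ B0, h464_U B0 c ξ n * mFourier n y =
      (1 - Complex.I) / 2 * sr c n * h464_X ξ n * mFourier n y
        + (1 + Complex.I) / 2 * sr c n * h464_X ξ (-n) * mFourier n y := by
    intro n hn
    have hne : n ≠ 0 := fun h => hB0.zero (h ▸ hn)
    rw [h464_U, if_neg hne]
    ring
  have h3 : ∀ n ∈ B0, sr c n * (h464_X ξ n : ℂ) * (cas n y : ℂ) =
      (1 - Complex.I) / 2 * sr c n * h464_X ξ n * mFourier n y
        + (1 + Complex.I) / 2 * sr c n * h464_X ξ n * mFourier (-n) y := by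
    intro n _
    rw [h464_cas_eq]
    ring
  rw [Finset.sum_congr rfl h2, Finset.sum_congr rfl h3, Finset.sum_add_distrib,
    Finset.sum_add_distrib]
  congr 1
  refine Finset.sum_nbij' (fun n => -n) (fun n => -n) hB0.neg hB0.neg (by simp) (by simp) ?_
  intro n _
  rw [h464_sr_neg hc, neg_neg]

theorem h464_UU {B0 : Finset Mom} (hB0 : Sym B0) {c : Mom → ℝ} (hc : ∀ n, c (-n) = c n)
    (κ : Mom → ℝ) (hκ : ∀ n, κ (-n) = κ n) (ξ ξ' : B0 → Bool) :
    ∑ n ∈ B0, (κ n : ℂ) * (conj (h464_U B0 c ξ n) * h464_U B0 c ξ' n) =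
      ∑ n : B0, (κ n : ℂ) * ((|c n| : ℝ) : ℂ) * (sg (ξ n == ξ' n) : ℂ) := by
  have h1 : ∀ n ∈ B0, (κ n : ℂ) * (conj (h464_U B0 c ξ n) * h464_U B0 c ξ' n) =
      ((κ n * |c n| * (h464_X ξ n * h464_X ξ' n) / 2 : ℝ) : ℂ)
      + ((κ n * |c n| * (h464_X ξ (-n) * h464_X ξ' (-n)) / 2 : ℝ) : ℂ)
      + ((κ n * |c n| * (h464_X ξ n * h464_X ξ' (-n)) / 2 : ℝ) : ℂ) * Complex.I
      - ((κ n * |c n| * (h464_X ξ (-n) * h464_X ξ' n) / 2 : ℝ) : ℂ) * Complex.I := by
    intro n hn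
    have hne : n ≠ 0 := fun h => hB0.zero (h ▸ hn)
    have hsr := sr_norm c n
    rw [h464_U, h464_U, if_neg hne, if_neg hne]
    simp only [map_add, map_mul, map_div₀, map_sub, map_one, Complex.conj_I,
      Complex.conj_ofReal]
    have h2 : (conj (2 : ℂ)) = 2 := Complex.conj_ofNat 2
    rw [h2]
    push_cast
    rw [← hsr]
    ring_nf
    simp only [Complex.I_sq]
    ring
  rw [Finset.sum_congr rfl h1, Finset.sum_sub_distrib, Finset.sum_add_distrib,
    Finset.sum_add_distrib]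
  have s1 : ∑ n ∈ B0, ((κ n * |c n| * (h464_X ξ (-n) * h464_X ξ' (-n)) / 2 : ℝ) : ℂ) =
      ∑ n ∈ B0, ((κ n * |c n| * (h464_X ξ n * h464_X ξ' n) / 2 : ℝ) : ℂ) := by
    refine Finset.sum_nbij' (fun n => -n) (fun n => -n) hB0.neg hB0.neg (by simp) (by simp) ?_
    intro n _
    rw [hκ, hc]
  have s2 : ∑ n ∈ B0, ((κ n * |c n| * (h464_X ξ (-n) * h464_X ξ' n) / 2 : ℝ) : ℂ) * Complex.I =
      ∑ n ∈ B0, ((κ n * |c n| * (h464_X ξ n * h464_X ξ' (-n)) / 2 : ℝ) : ℂ) * Complex.I := by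
    refine Finset.sum_nbij' (fun n => -n) (fun n => -n) hB0.neg hB0.neg (by simp) (by simp) ?_
    intro n _
    rw [hκ, hc, neg_neg]
  rw [s1, s2, add_sub_cancel_right, ← Finset.sum_add_distrib,
    ← Finset.sum_coe_sort B0]
  refine Finset.sum_congr rfl fun n _ => ?_
  rw [h464_X_coe, h464_X_coe, h464_sg_mul]
  push_cast
  ring

theorem h464_Z {B0 : Finset Mom} (hB0 : Sym B0) {c : Mom → ℝ} (hc : ∀ n, c (-n) = c n)
    (ξ ξ' : B0 → Bool) :
    ∑ n ∈ insert 0 B0, conj (h464_U B0 c ξ n) * h464_U B0 c ξ' n =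
      ((zed (fun n : B0 => |c n|) (fun n => ξ n == ξ' n) : ℝ) : ℂ) := by
  rw [Finset.sum_insert hB0.zero]
  have h0 : conj (h464_U B0 c ξ 0) * h464_U B0 c ξ' 0 = 1 := by
    simp [h464_U]
  have h1 := h464_UU hB0 hc (fun _ => 1) (fun _ => rfl) ξ ξ'
  simp only [Complex.ofReal_one, one_mul] at h1
  rw [h0, h1, zed]
  push_cast
  rfl

theorem h464_K {B0 : Finset Mom} (hB0 : Sym B0) {c : Mom → ℝ} (hc : ∀ n, c (-n) = c n)
    (q : ℝ) (ξ ξ' : B0 → Bool) :
    ∑ n ∈ insert 0 B0, ((q * sq n : ℝ) : ℂ) * (conj (h464_U B0 c ξ n) * h464_U B0 c ξ' n) =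
      ((∑ n : B0, (q * sq n) * |c n| * sg (ξ n == ξ' n) : ℝ) : ℂ) := by
  rw [Finset.sum_insert hB0.zero]
  have h0 : sq 0 = 0 := by simp [sq]
  have h1 := h464_UU hB0 hc (fun n => q * sq n) (fun n => by rw [h464_sq_neg]) ξ ξ'
  rw [h1, h0]
  push_cast
  simp

/-- a weighted product sum over `piFinset` -/
theorem h464_pi_weight {N : ℕ} (B : Finset Mom) (κ f : Mom → ℂ) (i : Fin N) :
    ∑ M ∈ Fintype.piFinset (fun _ : Fin N => B), κ (M i) * ∏ l, f (M l) =
      (∑ n ∈ B, κ n * f n) * (∑ n ∈ B, f n) ^ (N - 1) := by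
  classical
  have h1 : ∀ M : Fin N → Mom, κ (M i) * ∏ l, f (M l) =
      ∏ l, (fun (l : Fin N) (n : Mom) => if l = i then κ n * f n else f n) l (M l) := by
    intro M
    rw [← Finset.mul_prod_erase Finset.univ (fun l => f (M l)) (Finset.mem_univ i),
      ← Finset.mul_prod_erase Finset.univ (fun l =>
        (fun (l : Fin N) (n : Mom) => if l = i then κ n * f n else f n) l (M l))
        (Finset.mem_univ i)]
    simp only [if_true]
    rw [← mul_assoc]
    congr 1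
    refine Finset.prod_congr rfl fun l hl => ?_
    rw [if_neg (Finset.ne_of_mem_erase hl)]
  rw [Finset.sum_congr rfl fun M _ => h1 M,
    ← Finset.prod_univ_sum (fun _ : Fin N => B)
      (fun (l : Fin N) (n : Mom) => if l = i then κ n * f n else f n),
    ← Finset.mul_prod_erase Finset.univ _ (Finset.mem_univ i)]
  simp only [if_true]
  congr 1
  rw [Finset.prod_congr rfl (g := fun _ => ∑ n ∈ B, f n)]
  · rw [Finset.prod_const, Finset.card_erase_of_mem (Finset.mem_univ i), Finset.card_univ,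
      Fintype.card_fin]
  · intro l hl
    refine Finset.sum_congr rfl fun n _ => ?_
    rw [if_neg (Finset.ne_of_mem_erase hl)]

/-- coefficients of the trial state: norm, kinetic energy and the values of the function -/
theorem trial_exists (N : ℕ) {q : ℝ} {B0 : Finset Mom} (hB0 : Sym B0) {c : Mom → ℝ}
    (hc : ∀ n, c (-n) = c n) :
    ∃ a : (Fin N → Mom) → ℂ,
      (∀ x : Cfg N, trig (insert 0 B0) a x = ∑ ξ : B0 → Bool, ∏ i, uf B0 c ξ (pos x i)) ∧
      nrm (insert 0 B0) a = 2 ^ Fintype.card B0 *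
        ∑ η : B0 → Bool, zed (fun n : B0 => |c n|) η ^ N ∧
      kinF (insert 0 B0) a q = 2 ^ Fintype.card B0 * (N * ∑ n : B0, (q * sq n) * |c n| *
        ∑ η : B0 → Bool, sg (η n) * zed (fun n : B0 => |c n|) η ^ (N - 1)) := by
  classical
  set a : (Fin N → Mom) → ℂ := fun M => ∑ ξ : B0 → Bool, ∏ i, h464_U B0 c ξ (M i) with ha
  have hnorm : ∀ M, ((‖a M‖ ^ 2 : ℝ) : ℂ) = ∑ ξ : B0 → Bool, ∑ ξ' : B0 → Bool,
      ∏ l, (conj (h464_U B0 c ξ (M l)) * h464_U B0 c ξ' (M l)) := by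
    intro M
    rw [Complex.ofReal_pow, ← Complex.conj_mul']
    simp only [ha, map_sum, Finset.sum_mul_sum, map_prod, Finset.prod_mul_distrib]
  refine ⟨a, ?_, ?_, ?_⟩
  · intro x
    unfold trig
    simp only [ha, Finset.sum_mul]
    rw [Finset.sum_comm]
    refine Finset.sum_congr rfl fun ξ _ => ?_
    simp_rw [h464_uf hB0 hc]
    rw [Finset.prod_univ_sum]
    refine Finset.sum_congr rfl fun M _ => ?_
    rw [h464_mF_unc, Finset.prod_mul_distrib]
  · apply Complex.ofReal_injective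
    unfold nrm
    rw [Complex.ofReal_sum]
    simp_rw [hnorm]
    rw [Finset.sum_comm]
    have h1 : ∀ ξ : B0 → Bool, ∑ M ∈ Fintype.piFinset (fun _ : Fin N => insert 0 B0),
        ∑ ξ' : B0 → Bool, ∏ l, (conj (h464_U B0 c ξ (M l)) * h464_U B0 c ξ' (M l)) =
        ∑ ξ' : B0 → Bool, (fun η : B0 → Bool =>
          ((zed (fun n : B0 => |c n|) η : ℝ) : ℂ) ^ N) (fun n => ξ n == ξ' n) := by
      intro ξ
      rw [Finset.sum_comm]
      refine Finset.sum_congr rfl fun ξ' _ => ?_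
      rw [← Finset.prod_univ_sum (fun _ : Fin N => insert 0 B0)
        (fun _ n => conj (h464_U B0 c ξ n) * h464_U B0 c ξ' n)]
      rw [Finset.prod_const, Finset.card_univ, Fintype.card_fin, h464_Z hB0 hc]
    rw [Finset.sum_congr rfl fun ξ _ => h1 ξ]
    refine (h464_xor (fun η : B0 → Bool =>
      ((zed (fun n : B0 => |c n|) η : ℝ) : ℂ) ^ N)).trans ?_
    push_cast
    rfl
  · apply Complex.ofReal_injective
    unfold kinF
    rw [Complex.ofReal_sum]
    simp_rw [Complex.ofReal_mul, hnorm, Complex.ofReal_sum, Finset.sum_mul]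
    rw [Finset.sum_comm]
    have h1 : ∀ i : Fin N, ∑ M ∈ Fintype.piFinset (fun _ : Fin N => insert 0 B0),
        ((q * sq (M i) : ℝ) : ℂ) * ∑ ξ : B0 → Bool, ∑ ξ' : B0 → Bool,
          ∏ l, (conj (h464_U B0 c ξ (M l)) * h464_U B0 c ξ' (M l)) =
        ∑ ξ : B0 → Bool, ∑ ξ' : B0 → Bool, (fun η : B0 → Bool =>
          ((∑ n : B0, (q * sq n) * |c n| * sg (η n) : ℝ) : ℂ) *
          ((zed (fun n : B0 => |c n|) η : ℝ) : ℂ) ^ (N - 1)) (fun n => ξ n == ξ' n) := by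
      intro i
      simp_rw [Finset.mul_sum]
      rw [Finset.sum_comm]
      refine Finset.sum_congr rfl fun ξ _ => ?_
      rw [Finset.sum_comm]
      refine Finset.sum_congr rfl fun ξ' _ => ?_
      rw [h464_pi_weight (insert 0 B0) (fun n => ((q * sq n : ℝ) : ℂ))
        (fun n => conj (h464_U B0 c ξ n) * h464_U B0 c ξ' n) i, h464_K hB0 hc, h464_Z hB0 hc]
    have h2 : ∀ i : Fin N, ∑ M ∈ Fintype.piFinset (fun _ : Fin N => insert 0 B0),
        ((q * sq (M i) : ℝ) : ℂ) * ∑ ξ : B0 → Bool, ∑ ξ' : B0 → Bool,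
          ∏ l, (conj (h464_U B0 c ξ (M l)) * h464_U B0 c ξ' (M l)) =
        2 ^ Fintype.card B0 * ∑ η : B0 → Bool,
          ((∑ n : B0, (q * sq n) * |c n| * sg (η n) : ℝ) : ℂ) *
          ((zed (fun n : B0 => |c n|) η : ℝ) : ℂ) ^ (N - 1) := by
      intro i
      rw [h1 i]
      exact h464_xor (fun η : B0 → Bool => ((∑ n : B0, (q * sq n) * |c n| * sg (η n) : ℝ) : ℂ) *
          ((zed (fun n : B0 => |c n|) η : ℝ) : ℂ) ^ (N - 1))
    rw [Finset.sum_congr rfl fun i _ => h2 i, Finset.sum_const, Finset.card_univ,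
      Fintype.card_fin, nsmul_eq_mul]
    push_cast
    simp_rw [Finset.sum_mul, Finset.mul_sum]
    rw [Finset.sum_comm]
    refine Finset.sum_congr rfl fun n _ => Finset.sum_congr rfl fun η _ => ?_
    ring

end

end Pool.Agent.H751R2.LHY
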