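import Pool.Agent.H751R2.LHY.Defs

open MeasureTheory UnitAddTorus
open scoped ComplexConjugate ENNReal

namespace Pool.Agent.H751R2.LHY

noncomputable section

theorem h464_mF_add {d : Type*} [Fintype d] (n : d → ℤ) (x y : UnitAddTorus d) :
    mFourier n (x + y) = mFourier n x * mFourier n y := by
  simp only [mFourier, ContinuousMap.coe_mk, ← Finset.prod_mul_distrib]
  refine Finset.prod_congr rfl fun i _ => ?_
  rw [fourier_apply, fourier_apply, fourier_apply, Pi.add_apply, smul_add,
    AddCircle.toCircle_add, Circle.coe_mul]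

theorem h464_mF_neg {d : Type*} [Fintype d] (n : d → ℤ) (x : UnitAddTorus d) :
    mFourier n (-x) = mFourier (-n) x := by
  simp only [mFourier, ContinuousMap.coe_mk]
  refine Finset.prod_congr rfl fun i _ => ?_
  rw [fourier_apply, fourier_apply, Pi.neg_apply, Pi.neg_apply, smul_neg, neg_smul]

theorem h464_mF_unc {N : ℕ} (M : Fin N → Mom) (x : Cfg N) :
    mFourier (unc M) x = ∏ l, mFourier (M l) (pos x l) := by
  simp only [mFourier, ContinuousMap.coe_mk, unc, pos]
  rw [Fintype.prod_prod_type]

/-- difference of two positions as a homomorphism -/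
def h464_diff {N : ℕ} (i j : Fin N) : Cfg N →+ T3 where
  toFun x := pos x i - pos x j
  map_zero' := by ext a; simp [pos]
  map_add' x y := by
    ext a
    simp only [pos, Pi.add_apply, Pi.sub_apply]
    abel

theorem mp_diff {N : ℕ} {i j : Fin N} (hij : i ≠ j) :
    MeasurePreserving (fun x : Cfg N => pos x i - pos x j) volume volume := by
  have h := AddMonoidHom.measurePreserving (μ := (volume : Measure (Cfg N)))
    (ν := (volume : Measure T3)) (f := h464_diff i j) ?_ ?_ ?_
  · exact h
  · change Continuous fun x : Cfg N => pos x i - pos x j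
    unfold pos
    fun_prop
  · intro y
    refine ⟨fun p => if p.1 = i then y p.2 else 0, ?_⟩
    ext a
    simp [h464_diff, pos, hij.symm]
  · rw [measure_univ, measure_univ]

theorem h464_exists_ne {k : ℤ} (hk : k ≠ 0) : ∃ t : UnitAddCircle, fourier k t ≠ 1 := by
  refine ⟨((1 / (2 * k) : ℝ) : UnitAddCircle), ?_⟩
  have hk' : (k : ℂ) ≠ 0 := by exact_mod_cast hk
  have h : (2 * (Real.pi : ℂ) * Complex.I * k * ((1 / (2 * k) : ℝ) : ℂ) / ((1 : ℝ) : ℂ)) =
      Real.pi * Complex.I := by
    push_cast
    field_simp
  rw [fourier_coe_apply, h, Complex.exp_pi_mul_I]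
  norm_num

theorem h464_mF_single {d : Type*} [Fintype d] [DecidableEq d] (n : d → ℤ) (p : d)
    (t : UnitAddCircle) : mFourier n (Pi.single p t) = fourier (n p) t := by
  simp only [mFourier, ContinuousMap.coe_mk]
  rw [Finset.prod_eq_single p]
  · simp
  · intro b _ hb
    rw [Pi.single_eq_of_ne hb, fourier_eval_zero]
  · intro h
    exact absurd (Finset.mem_univ p) h

theorem h464_vanish {N : ℕ} {i j : Fin N} (g : T3 → ℂ) (M : Fin N → Mom) (z : Cfg N)
    (hz : pos z i = pos z j) (hM : mFourier (unc M) z ≠ 1) :
    ∫ x : Cfg N, g (pos x i - pos x j) * mFourier (unc M) x = 0 := by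
  set F : Cfg N → ℂ := fun x => g (pos x i - pos x j) * mFourier (unc M) x with hF
  have h1 : ∫ x : Cfg N, F (x + z) = ∫ x, F x := integral_add_right_eq_self F z
  have h2 : ∀ x, F (x + z) = F x * mFourier (unc M) z := by
    intro x
    have h3 : pos (x + z) i - pos (x + z) j = pos x i - pos x j := by
      have e1 : pos (x + z) i = pos x i + pos z i := rfl
      have e2 : pos (x + z) j = pos x j + pos z j := rfl
      rw [e1, e2, hz]
      abel
    simp only [hF]
    rw [h3, h464_mF_add]
    ring
  simp_rw [h2] at h1
  rw [integral_mul_const] at h1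
  have h4 : (∫ x, F x) * (mFourier (unc M) z - 1) = 0 := by linear_combination h1
  exact (mul_eq_zero.mp h4).resolve_right (sub_ne_zero.mpr hM)

theorem int_pair {N : ℕ} {i j : Fin N} (hij : i ≠ j) (g : T3 → ℂ) (hg : Integrable g)
    (M : Fin N → Mom) :
    ∫ x : Cfg N, g (pos x i - pos x j) * mFourier (unc M) x =
      if (∀ l, l ≠ i → l ≠ j → M l = 0) ∧ M j = -M i then ∫ y, g y * mFourier (M i) y else 0 := by
  classical
  split_ifs with h
  · obtain ⟨h1, h2⟩ := h
    have h3 : ∀ x : Cfg N, mFourier (unc M) x = mFourier (M i) (pos x i - pos x j) := by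
      intro x
      rw [h464_mF_unc, ← Finset.prod_subset (Finset.subset_univ {i, j}), Finset.prod_pair hij, h2,
        ← h464_mF_neg, ← h464_mF_add, sub_eq_add_neg]
      intro l _ hl
      simp only [Finset.mem_insert, Finset.mem_singleton, not_or] at hl
      rw [h1 l hl.1 hl.2, mFourier_zero]
      rfl
    simp_rw [h3]
    have h4 : AEStronglyMeasurable (fun y => g y * mFourier (M i) y)
        (Measure.map (fun x : Cfg N => pos x i - pos x j) volume) := by
      rw [(mp_diff hij).map_eq]
      exact hg.aestronglyMeasurable.mul (mFourier (M i)).continuous.aestronglyMeasurable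
    have h5 := integral_map (mp_diff hij).measurable.aemeasurable h4
    rw [(mp_diff hij).map_eq] at h5
    exact h5.symm
  · rw [not_and_or] at h
    rcases h with h | h
    · push Not at h
      obtain ⟨l, hli, hlj, hl⟩ := h
      obtain ⟨a, ha⟩ : ∃ a, M l a ≠ 0 := by
        by_contra hcon
        push Not at hcon
        exact hl (funext hcon)
      obtain ⟨t, ht⟩ := h464_exists_ne ha
      refine h464_vanish g M (Pi.single (l, a) t) ?_ ?_
      · ext b
        simp only [pos]
        rw [Pi.single_eq_of_ne, Pi.single_eq_of_ne]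
        · intro hc; exact hlj (Prod.ext_iff.mp hc).1.symm
        · intro hc; exact hli (Prod.ext_iff.mp hc).1.symm
      · rw [h464_mF_single]
        exact ht
    · obtain ⟨a, ha⟩ : ∃ a, M i a + M j a ≠ 0 := by
        by_contra hcon
        push Not at hcon
        refine h (funext fun a => ?_)
        have := hcon a
        simp only [Pi.neg_apply]
        omega
      obtain ⟨t, ht⟩ := h464_exists_ne ha
      refine h464_vanish g M (Pi.single (i, a) t + Pi.single (j, a) t) ?_ ?_
      · ext b
        simp only [pos, Pi.add_apply]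
        have e1 : (Pi.single (i, a) t : Cfg N) (j, b) = 0 :=
          Pi.single_eq_of_ne (fun hc => hij (Prod.ext_iff.mp hc).1.symm) _
        have e2 : (Pi.single (j, a) t : Cfg N) (i, b) = 0 :=
          Pi.single_eq_of_ne (fun hc => hij (Prod.ext_iff.mp hc).1) _
        rw [e1, e2]
        by_cases hb : b = a
        · subst hb; simp
        · have e3 : (Pi.single (i, a) t : Cfg N) (i, b) = 0 :=
            Pi.single_eq_of_ne (fun hc => hb (Prod.ext_iff.mp hc).2) _
          have e4 : (Pi.single (j, a) t : Cfg N) (j, b) = 0 :=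
            Pi.single_eq_of_ne (fun hc => hb (Prod.ext_iff.mp hc).2) _
          rw [e3, e4]
      · rw [h464_mF_add, h464_mF_single, h464_mF_single]
        simp only [unc]
        rw [← fourier_add]
        exact ht

end

end Pool.Agent.H751R2.LHY
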