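import Pool.Agent.H464R2.LHY.Int
import Pool.Agent.H464R2.LHY.Scat

open MeasureTheory UnitAddTorus
open scoped ComplexConjugate ENNReal

namespace Pool.Agent.H751R2.LHY

noncomputable section

theorem h464_cs_neg_arg (n : Mom) (y : T3) : cs n (-y) = cs n y := by
  unfold cs
  rw [h464_mF_neg, mFourier_neg, Complex.conj_re]

theorem h464_wf_neg_arg (B0 : Finset Mom) (c : Mom → ℝ) (y : T3) :
    wf B0 c (-y) = wf B0 c y := by
  simp [wf, h464_cs_neg_arg]

instance h464_negInv : (volume : Measure T3).IsNegInvariant := by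
  have h := AddMonoidHom.measurePreserving (μ := (volume : Measure T3))
    (ν := (volume : Measure T3)) (f := negAddMonoidHom) continuous_neg neg_surjective rfl
  exact ⟨h.map_eq⟩

theorem h464_int_even {g : T3 → ℝ} (hg : Integrable g) (he : ∀ y, g (-y) = g y) (n : Mom) :
    ∫ y, (g y : ℂ) * mFourier n y = ((∫ y, g y * cs n y : ℝ) : ℂ) := by
  set f : T3 → ℂ := fun y => (g y : ℂ) * mFourier n y with hf
  have h1 : ∫ y, f (-y) = ∫ y, f y := integral_neg_eq_self f volume
  have h2 : ∀ y, f (-y) = conj (f y) := by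
    intro y
    simp only [hf, map_mul, Complex.conj_ofReal]
    rw [he, h464_mF_neg, mFourier_neg]
  have h3 : conj (∫ y, f y) = ∫ y, f y := by
    rw [← integral_conj]
    simp_rw [← h2]
    exact h1
  have hfi : Integrable f := by
    have h5 : Integrable (fun y => (g y : ℂ)) := hg.ofReal
    exact h5.mul_bdd (c := 1) (mFourier n).continuous.aestronglyMeasurable
      (ae_of_all _ fun y => by
        have := ContinuousMap.norm_coe_le_norm (mFourier n) y
        rwa [mFourier_norm] at this)
  have h4 : (∫ y, f y).re = ∫ y, g y * cs n y := by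
    have h6 := integral_re (𝕜 := ℂ) hfi
    simp only [RCLike.re_to_complex] at h6
    rw [← h6]
    refine integral_congr_ae (ae_of_all _ fun y => ?_)
    simp only [hf, cs, Complex.mul_re, Complex.ofReal_re, Complex.ofReal_im]
    ring
  rw [← h4]
  exact (Complex.conj_eq_iff_real.mp h3).elim fun r hr => by rw [hr]; simp

section
variable {N : ℕ}

/-- double expansion of a pair integral -/
theorem h464_expand {i j : Fin N} (hij : i ≠ j) {g : T3 → ℂ} (hg : Integrable g)
    (S S' : Finset (Fin N → Mom)) (a b : (Fin N → Mom) → ℂ) :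
    ∫ x : Cfg N, g (pos x i - pos x j) *
        (conj (∑ M ∈ S, a M * mFourier (unc M) x) * ∑ M ∈ S', b M * mFourier (unc M) x) =
      ∑ M ∈ S, ∑ M' ∈ S', conj (a M) * b M' *
        (if (∀ l, l ≠ i → l ≠ j → M' l = M l) ∧ M' j - M j = -(M' i - M i) then
          ∫ y, g y * mFourier (M' i - M i) y else 0) := by
  have hgi : Integrable (fun x : Cfg N => g (pos x i - pos x j)) :=
    (mp_diff hij).integrable_comp_of_integrable hg
  have h1 : ∀ x : Cfg N, g (pos x i - pos x j) *
        (conj (∑ M ∈ S, a M * mFourier (unc M) x) * ∑ M ∈ S', b M * mFourier (unc M) x) =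
      ∑ M ∈ S, ∑ M' ∈ S', conj (a M) * b M' *
        (g (pos x i - pos x j) * mFourier (unc (M' - M)) x) := by
    intro x
    rw [map_sum, Finset.sum_mul_sum, Finset.mul_sum]
    refine Finset.sum_congr rfl fun M _ => ?_
    rw [Finset.mul_sum]
    refine Finset.sum_congr rfl fun M' _ => ?_
    have h2 : unc (M' - M) = unc M' + -unc M := by
      ext p
      simp [unc, sub_eq_add_neg]
    rw [h2, mFourier_add, mFourier_neg, map_mul]
    ring
  have hint : ∀ D : Fin N → Mom,
      Integrable (fun x : Cfg N => g (pos x i - pos x j) * mFourier (unc D) x) := fun D =>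
    hgi.mul_bdd (c := 1) (mFourier (unc D)).continuous.aestronglyMeasurable
      (ae_of_all _ fun y => by
        have := ContinuousMap.norm_coe_le_norm (mFourier (unc D)) y
        rwa [mFourier_norm] at this)
  simp_rw [h1]
  rw [integral_finsetSum _ fun M _ => integrable_finsetSum _ fun M' _ => (hint _).const_mul _]
  refine Finset.sum_congr rfl fun M _ => ?_
  rw [integral_finsetSum _ fun M' _ => (hint _).const_mul _]
  refine Finset.sum_congr rfl fun M' _ => ?_
  rw [integral_const_mul, int_pair hij g hg]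
  congr 1
  simp only [Pi.sub_apply, sub_eq_zero]

/-- the amplitude of one ordered pair -/
def h464_p (B : Finset Mom) (a : (Fin N → Mom) → ℂ) (i j : Fin N) (n : Mom) : ℂ :=
  ∑ M ∈ (Fintype.piFinset (fun _ : Fin N => B)).filter (fun M => M i = 0 ∧ M j = 0),
      conj (a M) * a (Function.update (Function.update M i n) j (-n))

theorem h464_cross {i j : Fin N} (hij : i ≠ j) {B : Finset Mom}
    (hB : ∀ n ∈ B, -n ∈ B) {g : T3 → ℂ} (hg : Integrable g) (a : (Fin N → Mom) → ℂ) :
    ∫ x : Cfg N, g (pos x i - pos x j) *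
        (conj (∑ M ∈ (Fintype.piFinset (fun _ : Fin N => B)).filter
          (fun M => M i = 0 ∧ M j = 0), a M * mFourier (unc M) x) * trig B a x) =
      ∑ n ∈ B, (∫ y, g y * mFourier n y) * h464_p B a i j n := by
  unfold trig
  rw [h464_expand hij hg]
  simp only [h464_p, Finset.mul_sum]
  rw [Finset.sum_comm (s := B)]
  refine Finset.sum_congr rfl fun M hM => ?_
  simp only [Finset.mem_filter, Fintype.mem_piFinset] at hM
  obtain ⟨hM1, hM2, hM3⟩ := hM
  rw [← Finset.sum_filter_add_sum_filter_not (Fintype.piFinset fun _ : Fin N => B)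
    (fun M' => (∀ l, l ≠ i → l ≠ j → M' l = M l) ∧ M' j - M j = -(M' i - M i))]
  rw [Finset.sum_eq_zero (s := Finset.filter (fun M' => ¬_) _)]
  · rw [add_zero]
    symm
    refine Finset.sum_nbij' (fun n => Function.update (Function.update M i n) j (-n))
      (fun M' => M' i) ?_ ?_ ?_ ?_ ?_
    · intro n hn
      simp only [Finset.mem_filter, Fintype.mem_piFinset]
      refine ⟨fun l => ?_, ?_, ?_⟩
      · by_cases hlj : l = j
        · subst hlj; simpa using hB n hn
        · rw [Function.update_of_ne hlj]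
          by_cases hli : l = i
          · subst hli; simpa using hn
          · rw [Function.update_of_ne hli]; exact hM1 l
      · intro l hli hlj
        rw [Function.update_of_ne hlj, Function.update_of_ne hli]
      · rw [Function.update_self, Function.update_of_ne hij, Function.update_self, hM2, hM3]
        simp
    · intro M' hM'
      simp only [Finset.mem_filter, Fintype.mem_piFinset] at hM'
      exact hM'.1 i
    · intro n _
      rw [Function.update_of_ne hij, Function.update_self]
    · intro M' hM'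
      simp only [Finset.mem_filter, Fintype.mem_piFinset] at hM'
      obtain ⟨-, h1, h2⟩ := hM'
      rw [hM2, hM3, sub_zero, sub_zero] at h2
      ext1 l
      by_cases hlj : l = j
      · subst hlj; rw [Function.update_self, h2]
      · rw [Function.update_of_ne hlj]
        by_cases hli : l = i
        · subst hli; rw [Function.update_self]
        · rw [Function.update_of_ne hli, h1 l hli hlj]
    · intro n hn
      rw [if_pos, Function.update_of_ne hij, Function.update_self, hM2, sub_zero]
      · ring
      · refine ⟨fun l hli hlj => ?_, ?_⟩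
        · rw [Function.update_of_ne hlj, Function.update_of_ne hli]
        · rw [Function.update_self, Function.update_of_ne hij, Function.update_self, hM2, hM3]
          simp
  · intro M' hM'
    rw [Finset.mem_filter] at hM'
    rw [if_neg hM'.2, mul_zero]

theorem h464_diag {i j : Fin N} (hij : i ≠ j) {B : Finset Mom} {g : T3 → ℂ}
    (hg : Integrable g) (a : (Fin N → Mom) → ℂ) :
    ∫ x : Cfg N, g (pos x i - pos x j) *
        (conj (∑ M ∈ (Fintype.piFinset (fun _ : Fin N => B)).filter
          (fun M => M i = 0 ∧ M j = 0), a M * mFourier (unc M) x) *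
          ∑ M ∈ (Fintype.piFinset (fun _ : Fin N => B)).filter
          (fun M => M i = 0 ∧ M j = 0), a M * mFourier (unc M) x) =
      (∫ y, g y) * h464_p B a i j 0 := by
  rw [h464_expand hij hg, h464_p, Finset.mul_sum]
  refine Finset.sum_congr rfl fun M hM => ?_
  rw [Finset.sum_eq_single M]
  · rw [if_pos]
    · simp only [Finset.mem_filter, Fintype.mem_piFinset] at hM
      obtain ⟨hM1, hM2, hM3⟩ := hM
      have h1 : Function.update (Function.update M i 0) j (-0) = M := by
        rw [neg_zero]
        ext1 l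
        by_cases hlj : l = j
        · subst hlj; rw [Function.update_self, hM3]
        · rw [Function.update_of_ne hlj]
          by_cases hli : l = i
          · subst hli; rw [Function.update_self, hM2]
          · rw [Function.update_of_ne hli]
      rw [h1, sub_self, mFourier_zero]
      simp only [ContinuousMap.one_apply, mul_one]
      ring
    · simp
  · intro M' hM' hne
    simp only [Finset.mem_filter, Fintype.mem_piFinset] at hM hM'
    rw [if_neg, mul_zero]
    rintro ⟨h1, -⟩
    apply hne
    ext1 l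
    by_cases hlj : l = j
    · subst hlj; rw [hM'.2.2, hM.2.2]
    · by_cases hli : l = i
      · subst hli; rw [hM'.2.1, hM.2.1]
      · exact h1 l hli hlj
  · intro h
    exact absurd hM h

theorem h464_pair_ge {W : T3 → ℝ} (hW : Pot W) {B0 : Finset Mom} (hB0 : Sym B0)
    (c : Mom → ℝ) (a : (Fin N → Mom) → ℂ) {i j : Fin N} (hij : i ≠ j) :
    2 * (∑ n ∈ insert 0 B0, gh W B0 c n * (h464_p (insert 0 B0) a i j n).re)
      - (∫ y, W y * (1 - wf B0 c y) ^ 2) * (h464_p (insert 0 B0) a i j 0).re
      ≤ ∫ x : Cfg N, W (pos x i - pos x j) * ‖trig (insert 0 B0) a x‖ ^ 2 := by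
  set B := insert 0 B0 with hBdef
  have hB : ∀ n ∈ B, -n ∈ B := by
    intro n hn
    rw [hBdef, Finset.mem_insert] at hn ⊢
    rcases hn with rfl | hn
    · left; simp
    · right; exact hB0.neg n hn
  set G := (Fintype.piFinset (fun _ : Fin N => B)).filter (fun M => M i = 0 ∧ M j = 0) with hG
  set ps : Cfg N → ℂ := fun x => ∑ M ∈ G, a M * mFourier (unc M) x with hps
  have hpsc : Continuous ps :=
    continuous_finsetSum _ fun M _ => continuous_const.mul (mFourier (unc M)).continuous
  have htc : Continuous (trig B a) :=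
    continuous_finsetSum _ fun M _ => continuous_const.mul (mFourier (unc M)).continuous
  have hcc : Continuous (fun y => 1 - wf B0 c y) := continuous_const.sub (h464_wf_cont B0 c)
  have i1 : Integrable (fun y => W y * (1 - wf B0 c y)) := h464_int_mul hW.int hcc
  have i2 : Integrable (fun y => W y * (1 - wf B0 c y) ^ 2) := h464_int_mul hW.int (hcc.pow 2)
  have hbdd : ∀ {f : Cfg N → ℂ}, Continuous f → ∀ {g : T3 → ℝ}, Integrable g →
      Integrable (fun x : Cfg N => ((g (pos x i - pos x j) : ℝ) : ℂ) * f x) := by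
    intro f hf g hg
    obtain ⟨C, hC⟩ := isCompact_univ.exists_bound_of_continuousOn hf.continuousOn
    have h5 : Integrable (fun x : Cfg N => ((g (pos x i - pos x j) : ℝ) : ℂ)) :=
      ((mp_diff hij).integrable_comp_of_integrable hg).ofReal
    exact h5.mul_bdd (c := C) hf.aestronglyMeasurable (ae_of_all _ fun y => hC y trivial)
  have j1 := hbdd (f := fun x => conj (ps x) * trig B a x)
    ((Complex.continuous_conj.comp hpsc).mul htc) i1
  have j2 := hbdd (f := fun x => conj (ps x) * ps x)
    ((Complex.continuous_conj.comp hpsc).mul hpsc) i2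
  have j3 : Integrable (fun x : Cfg N => W (pos x i - pos x j) * ‖trig B a x‖ ^ 2) := by
    obtain ⟨C, hC⟩ := isCompact_univ.exists_bound_of_continuousOn (htc.norm.pow 2).continuousOn
    have h5 : Integrable (fun x : Cfg N => W (pos x i - pos x j)) :=
      (mp_diff hij).integrable_comp_of_integrable hW.int
    exact h5.mul_bdd (c := C) (htc.norm.pow 2).aestronglyMeasurable
      (ae_of_all _ fun y => hC y trivial)
  have e1 : ∫ x : Cfg N, (((W (pos x i - pos x j) * (1 - wf B0 c (pos x i - pos x j)) : ℝ)) : ℂ)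
      * (conj (ps x) * trig B a x) = ∑ n ∈ B, (gh W B0 c n : ℂ) * h464_p B a i j n := by
    have := h464_cross hij hB (g := fun y => ((W y * (1 - wf B0 c y) : ℝ) : ℂ)) i1.ofReal a
    refine this.trans (Finset.sum_congr rfl fun n _ => ?_)
    rw [h464_int_even i1 (fun y => by rw [hW.even, h464_wf_neg_arg])]
    rfl
  have e2 : ∫ x : Cfg N,
      (((W (pos x i - pos x j) * (1 - wf B0 c (pos x i - pos x j)) ^ 2 : ℝ)) : ℂ)
      * (conj (ps x) * ps x) =
      ((∫ y, W y * (1 - wf B0 c y) ^ 2 : ℝ) : ℂ) * h464_p B a i j 0 := by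
    have := h464_diag hij (B := B) (g := fun y => ((W y * (1 - wf B0 c y) ^ 2 : ℝ) : ℂ))
      i2.ofReal a
    rw [integral_complex_ofReal] at this
    exact this
  have r1 := integral_re (𝕜 := ℂ) j1
  have r2 := integral_re (𝕜 := ℂ) j2
  simp only [RCLike.re_to_complex] at r1 r2
  rw [e1] at r1
  rw [e2] at r2
  have k1 := j1.re
  have k2 := j2.re
  simp only [RCLike.re_to_complex] at k1 k2
  have s1 : (∑ n ∈ B, (gh W B0 c n : ℂ) * h464_p B a i j n).re =
      ∑ n ∈ B, gh W B0 c n * (h464_p B a i j n).re := by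
    rw [Complex.re_sum]
    exact Finset.sum_congr rfl fun n _ => by simp
  have s2 : (((∫ y, W y * (1 - wf B0 c y) ^ 2 : ℝ) : ℂ) * h464_p B a i j 0).re =
      (∫ y, W y * (1 - wf B0 c y) ^ 2) * (h464_p B a i j 0).re := by simp
  rw [s1] at r1
  rw [s2] at r2
  rw [← r1, ← r2, ← integral_const_mul, ← integral_sub (k1.const_mul 2) k2]
  refine integral_mono ((k1.const_mul 2).sub k2) j3 fun x => ?_
  simp only []
  set w := W (pos x i - pos x j) with hw
  set φ := 1 - wf B0 c (pos x i - pos x j) with hφ
  have hw0 : 0 ≤ w := hW.nonneg _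
  have t1 : ‖trig B a x‖ ^ 2 = (trig B a x).re ^ 2 + (trig B a x).im ^ 2 := by
    rw [← Complex.normSq_eq_norm_sq, Complex.normSq_apply]; ring
  rw [t1]
  simp only [Complex.mul_re, Complex.mul_im, Complex.ofReal_re, Complex.ofReal_im,
    Complex.conj_re, Complex.conj_im]
  set u := (trig B a x).re
  set v := (trig B a x).im
  set p := (ps x).re
  set r := (ps x).im
  nlinarith [mul_nonneg hw0 (add_nonneg (sq_nonneg (u - φ * p)) (sq_nonneg (v - φ * r)))]

end

theorem pot_ge {N : ℕ} {W : T3 → ℝ} (hW : Pot W) {B0 : Finset Mom} (hB0 : Sym B0)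
    (c : Mom → ℝ) (a : (Fin N → Mom) → ℂ) :
    ∑ n ∈ insert 0 B0, gh W B0 c n * (pairS (insert 0 B0) a n).re
      - (1 / 2) * (∫ y, W y * (1 - wf B0 c y) ^ 2) * (pairS (insert 0 B0) a 0).re
      ≤ potF (insert 0 B0) a W := by
  set B := insert 0 B0 with hBdef
  have h1 : ∀ n, (pairS B a n).re = ∑ i : Fin N, ∑ j ∈ Finset.univ.erase i,
      (h464_p B a i j n).re := by
    intro n
    unfold pairS h464_p
    simp only [Complex.re_sum]
  have h2 : ∑ i : Fin N, ∑ j ∈ Finset.univ.erase i,
      (2 * (∑ n ∈ B, gh W B0 c n * (h464_p B a i j n).re)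
      - (∫ y, W y * (1 - wf B0 c y) ^ 2) * (h464_p B a i j 0).re) ≤
      ∑ i : Fin N, ∑ j ∈ Finset.univ.erase i,
        ∫ x : Cfg N, W (pos x i - pos x j) * ‖trig B a x‖ ^ 2 :=
    Finset.sum_le_sum fun i _ => Finset.sum_le_sum fun j hj =>
      h464_pair_ge hW hB0 c a (Finset.ne_of_mem_erase hj).symm
  have h3 : ∑ i : Fin N, ∑ j ∈ Finset.univ.erase i,
      (2 * (∑ n ∈ B, gh W B0 c n * (h464_p B a i j n).re)
      - (∫ y, W y * (1 - wf B0 c y) ^ 2) * (h464_p B a i j 0).re) =
      2 * (∑ n ∈ B, gh W B0 c n * (pairS B a n).re)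
      - (∫ y, W y * (1 - wf B0 c y) ^ 2) * (pairS B a 0).re := by
    have h4 : ∑ n ∈ B, gh W B0 c n * (pairS B a n).re = ∑ i : Fin N, ∑ j ∈ Finset.univ.erase i,
        ∑ n ∈ B, gh W B0 c n * (h464_p B a i j n).re := by
      simp_rw [h1, Finset.mul_sum]
      rw [Finset.sum_comm]
      refine Finset.sum_congr rfl fun i _ => ?_
      rw [Finset.sum_comm]
    rw [h4, h1 0, Finset.mul_sum, Finset.mul_sum, ← Finset.sum_sub_distrib]
    refine Finset.sum_congr rfl fun i _ => ?_
    rw [Finset.mul_sum, Finset.mul_sum, ← Finset.sum_sub_distrib]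
  rw [potF]
  rw [h3] at h2
  linarith

end

end Pool.Agent.H751R2.LHY
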